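import Pool.Graph.R_pool_sql_team_seeded_64922ed1.X95T.HD

/-!
The size of the equation of the torsion function of order seven.
-/

set_option autoImplicit false

namespace Pool.Agent.H51.T7

open Pool.Agent.X95T

/-- the size of the equation, in terms of the sizes of its coefficients -/
lemma len_quad' (A u : Polynomial ℤ) (e : ℤ) (p N M : ℕ)
    (hA : Pool.Agent.H322R2.len (px A) ≤ N) (hu : Pool.Agent.H322R2.len (px u) ≤ M) :
    Pool.Agent.H322R2.len (quad (-(Polynomial.C 2 * A)) (Polynomial.C e * u ^ p)) ≤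
      1 + 2 * N + e.natAbs * M ^ p := by
  rw [quad]
  refine (Pool.Agent.H322R2.len_add_le _ _).trans (Nat.add_le_add ?_ ?_)
  · refine (Pool.Agent.H322R2.len_add_le _ _).trans (Nat.add_le_add ?_ ?_)
    · have h1 := Pool.Agent.W257.len_pow_le (MvPolynomial.X 1) 2 1 Pool.Agent.W257.len_X1
      rwa [one_pow] at h1
    · have e1 : px (-(Polynomial.C 2 * A)) = -(MvPolynomial.C 2 * px A) := by
        rw [← px_C, ← px_mul]
        simp only [px, map_neg]
      rw [e1]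
      refine (Pool.Agent.W257.len_mul_le _ _).trans ?_
      rw [Pool.Agent.W257.len_neg]
      have h2 := Pool.Agent.W257.len_mul_le (MvPolynomial.C 2) (px A)
      have h3 := Pool.Agent.W257.len_C 2
      calc _ ≤ (2 * N) * 1 := Nat.mul_le_mul (h2.trans (Nat.mul_le_mul h3 hA))
            Pool.Agent.W257.len_X1
        _ = _ := mul_one _
  · rw [px_mul, px_C, px_pow]
    refine (Pool.Agent.W257.len_mul_le _ _).trans ?_
    exact Nat.mul_le_mul (Pool.Agent.W257.len_C e) (Pool.Agent.W257.len_pow_le _ _ _ hu)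

lemma px_add (P Q : Polynomial ℤ) : px (P + Q) = px P + px Q := by
  simp only [px, map_add]

lemma px_neg (P : Polynomial ℤ) : px (-P) = -px P := by
  simp only [px, map_neg]

lemma px_X : px (Polynomial.X : Polynomial ℤ) = MvPolynomial.X 0 := by
  simp [px]

lemma len_lin (u : ℤ) (n : ℕ) (hn : 1 ≤ n) (hu : u.natAbs ≤ n) :
    Pool.Agent.H322R2.len (px (Polynomial.X - Polynomial.C u)) ≤ 2 * n := by
  rw [sub_eq_add_neg, px_add, px_neg, px_C, px_X]
  refine (Pool.Agent.H322R2.len_add_le _ _).trans ?_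
  rw [Pool.Agent.W257.len_neg]
  have h1 := Pool.Agent.W257.len_X0
  have h2 := Pool.Agent.W257.len_C u
  omega

lemma len_Ap (u v l α γ : ℤ) (n : ℕ) (hn : 1 ≤ n) (hu : u.natAbs ≤ n) (hv : v.natAbs ≤ n)
    (hl : l.natAbs ≤ n) (hα : α.natAbs ≤ n) (hγ : γ.natAbs ≤ n) :
    Pool.Agent.H322R2.len (px (-(Polynomial.C (2 * α + γ)) * (Polynomial.X - Polynomial.C u) ^ 3 -
      Polynomial.C ((α + γ) * α ^ 2) * (Polynomial.X - Polynomial.C u) ^ 2 -
        ((Polynomial.X - Polynomial.C u) ^ 2 + Polynomial.C ((α + γ) * (3 * α + γ)) *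
          (Polynomial.X - Polynomial.C u) + Polynomial.C ((α + γ) ^ 2 * α ^ 2)) *
          (Polynomial.C v + Polynomial.C l * (Polynomial.X - Polynomial.C u)))) ≤
      104 * n ^ 6 := by
  have hx := len_lin u n hn hu
  set x := (Polynomial.X : Polynomial ℤ) - Polynomial.C u with hxd
  have hx2 := Pool.Agent.W257.len_pow_le (px x) 2 _ hx
  have hx3 := Pool.Agent.W257.len_pow_le (px x) 3 _ hx
  have c1 : (2 * α + γ).natAbs ≤ 3 * n := by omega
  have c2 : (α + γ).natAbs ≤ 2 * n := by omega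
  have c3 : (3 * α + γ).natAbs ≤ 4 * n := by omega
  have c4 : ((α + γ) * α ^ 2).natAbs ≤ 2 * n ^ 3 := by
    rw [Int.natAbs_mul, Int.natAbs_pow]
    calc _ ≤ (2 * n) * n ^ 2 := Nat.mul_le_mul c2 (Nat.pow_le_pow_left hα _)
      _ = _ := by ring
  have c5 : ((α + γ) * (3 * α + γ)).natAbs ≤ 8 * n ^ 2 := by
    rw [Int.natAbs_mul]
    calc _ ≤ (2 * n) * (4 * n) := Nat.mul_le_mul c2 c3
      _ = _ := by ring
  have c6 : ((α + γ) ^ 2 * α ^ 2).natAbs ≤ 4 * n ^ 4 := by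
    rw [Int.natAbs_mul, Int.natAbs_pow, Int.natAbs_pow]
    calc _ ≤ (2 * n) ^ 2 * n ^ 2 :=
          Nat.mul_le_mul (Nat.pow_le_pow_left c2 _) (Nat.pow_le_pow_left hα _)
      _ = _ := by ring
  have d1 : Pool.Agent.H322R2.len (px (Polynomial.C (2 * α + γ) * x ^ 3)) ≤ 24 * n ^ 4 := by
    rw [px_mul, px_C, px_pow]
    calc _ ≤ (3 * n) * (2 * n) ^ 3 := (Pool.Agent.W257.len_mul_le _ _).trans
          (Nat.mul_le_mul ((Pool.Agent.W257.len_C _).trans c1) hx3)
      _ = _ := by ring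
  have d2 : Pool.Agent.H322R2.len (px (Polynomial.C ((α + γ) * α ^ 2) * x ^ 2)) ≤ 8 * n ^ 5 := by
    rw [px_mul, px_C, px_pow]
    calc _ ≤ (2 * n ^ 3) * (2 * n) ^ 2 := (Pool.Agent.W257.len_mul_le _ _).trans
          (Nat.mul_le_mul ((Pool.Agent.W257.len_C _).trans c4) hx2)
      _ = _ := by ring
  have d3 : Pool.Agent.H322R2.len (px (x ^ 2 + Polynomial.C ((α + γ) * (3 * α + γ)) * x +
      Polynomial.C ((α + γ) ^ 2 * α ^ 2))) ≤ 4 * n ^ 2 + 16 * n ^ 3 + 4 * n ^ 4 := by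
    rw [px_add, px_add, px_mul, px_C, px_C, px_pow]
    refine (Pool.Agent.H322R2.len_add_le _ _).trans (Nat.add_le_add ?_ ((Pool.Agent.W257.len_C _).trans c6))
    refine (Pool.Agent.H322R2.len_add_le _ _).trans (Nat.add_le_add ?_ ?_)
    · calc _ ≤ (2 * n) ^ 2 := hx2
        _ = _ := by ring
    · calc _ ≤ (8 * n ^ 2) * (2 * n) := (Pool.Agent.W257.len_mul_le _ _).trans
            (Nat.mul_le_mul ((Pool.Agent.W257.len_C _).trans c5) hx)
        _ = _ := by ring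
  have d4 : Pool.Agent.H322R2.len (px (Polynomial.C v + Polynomial.C l * x)) ≤
      n + 2 * n ^ 2 := by
    rw [px_add, px_mul, px_C, px_C]
    refine (Pool.Agent.H322R2.len_add_le _ _).trans (Nat.add_le_add ((Pool.Agent.W257.len_C _).trans hv) ?_)
    calc _ ≤ n * (2 * n) := (Pool.Agent.W257.len_mul_le _ _).trans
          (Nat.mul_le_mul ((Pool.Agent.W257.len_C _).trans hl) hx)
      _ = _ := by ring
  have d5 : Pool.Agent.H322R2.len (px ((x ^ 2 + Polynomial.C ((α + γ) * (3 * α + γ)) * x +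
      Polynomial.C ((α + γ) ^ 2 * α ^ 2)) * (Polynomial.C v + Polynomial.C l * x))) ≤
      (4 * n ^ 2 + 16 * n ^ 3 + 4 * n ^ 4) * (n + 2 * n ^ 2) := by
    rw [px_mul]
    exact (Pool.Agent.W257.len_mul_le _ _).trans (Nat.mul_le_mul d3 d4)
  have hn2 : n ≤ n ^ 2 := Nat.le_self_pow (by norm_num) _
  have h24 : n ^ 2 ≤ n ^ 4 := Nat.pow_le_pow_right hn (by norm_num)
  have h34 : n ^ 3 ≤ n ^ 4 := Nat.pow_le_pow_right hn (by norm_num)
  have h46 : n ^ 4 ≤ n ^ 6 := Nat.pow_le_pow_right hn (by norm_num)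
  have h56 : n ^ 5 ≤ n ^ 6 := Nat.pow_le_pow_right hn (by norm_num)
  have e5 : (4 * n ^ 2 + 16 * n ^ 3 + 4 * n ^ 4) * (n + 2 * n ^ 2) ≤ 72 * n ^ 6 := by
    calc _ ≤ (24 * n ^ 4) * (3 * n ^ 2) := Nat.mul_le_mul (by omega) (by omega)
      _ = _ := by ring
  rw [sub_eq_add_neg, sub_eq_add_neg, neg_mul, px_add, px_add, px_neg, px_neg, px_neg]
  refine (Pool.Agent.H322R2.len_add_le _ _).trans ?_
  have f1 := Pool.Agent.H322R2.len_add_le (-px (Polynomial.C (2 * α + γ) * x ^ 3))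
    (-px (Polynomial.C ((α + γ) * α ^ 2) * x ^ 2))
  rw [Pool.Agent.W257.len_neg, Pool.Agent.W257.len_neg] at f1
  rw [Pool.Agent.W257.len_neg]
  omega

end Pool.Agent.H51.T7
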