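import Pool.Graph.R_pool_sql_team_seeded_64922ed1.X95T.HD
import Pool.Graph.R_pool_sql_team_seeded_64922ed1.X95T.HE
import Pool.Graph.R_pool_sql_team_seeded_64922ed1.X95T.HG1

/-!
The algebra of a point of order seven on `y ^ 2 = x ^ 3 + A x + B`.
-/

set_option autoImplicit false

namespace Pool.Agent.H51.T7

open Polynomial Pool.Agent.X95T

/-- The relations between the slopes and the coordinates of `T`, `2 T`, `4 T` for a point `T` of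
order seven: `α = l₁ + l₂`, `β = l₂ + l₃`, `γ = l₃ + l₁`. -/
lemma rel7 {u₁ v₁ l₁ u₂ v₂ l₂ u₃ v₃ l₃ m : ℤ}
    (h12 : u₁ ≠ u₂) (h23 : u₂ ≠ u₃) (h31 : u₃ ≠ u₁)
    (a1 : l₁ ^ 2 = 2 * u₁ + u₂) (b1 : -v₂ = v₁ + l₁ * (u₂ - u₁))
    (a2 : l₂ ^ 2 = 2 * u₂ + u₃) (b2 : -v₃ = v₂ + l₂ * (u₃ - u₂))
    (a3 : l₃ ^ 2 = 2 * u₃ + u₁) (b3 : -v₁ = v₃ + l₃ * (u₁ - u₃))
    (am : m ^ 2 = u₁ + u₂ + u₃) (c1 : v₂ = v₁ + m * (u₂ - u₁)) (c2 : v₃ = v₂ + m * (u₃ - u₂)) :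
    u₂ - u₁ = (l₁ + l₂) * (l₂ + l₃) ∧ u₃ - u₂ = (l₂ + l₃) * (l₃ + l₁) ∧
      u₁ - u₃ = (l₃ + l₁) * (l₁ + l₂) ∧ 2 * v₁ = (l₁ + l₂) ^ 2 * (l₃ + l₁) := by
  have d12 : u₂ - u₁ ≠ 0 := sub_ne_zero.2 h12.symm
  have d23 : u₃ - u₂ ≠ 0 := sub_ne_zero.2 h23.symm
  have d31 : u₁ - u₃ ≠ 0 := sub_ne_zero.2 h31.symm
  -- twice the ordinates in two ways
  have e1 : 2 * v₁ = -((l₁ + m) * (u₂ - u₁)) := by linear_combination -c1 - b1
  have e2 : 2 * v₂ = (m - l₁) * (u₂ - u₁) := by linear_combination c1 - b1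
  have f2 : 2 * v₂ = -((l₂ + m) * (u₃ - u₂)) := by linear_combination -c2 - b2
  have f3 : 2 * v₃ = (m - l₂) * (u₃ - u₂) := by linear_combination c2 - b2
  have g3 : 2 * v₃ = -((l₃ + m) * (u₁ - u₃)) := by
    linear_combination c1 + c2 - b3
  have g1 : 2 * v₁ = (m - l₃) * (u₁ - u₃) := by
    linear_combination -c1 - c2 - b3
  have k1 : (l₁ + l₂) * (u₂ - u₁) = -((m + l₂) * (u₁ - u₃)) := by
    linear_combination e2 - f2
  have k2 : (l₂ + l₃) * (u₁ - u₃) = (m - l₂) * (u₂ - u₁) := by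
    linear_combination g3 - f3
  have k3 : (l₂ + l₃) * (u₃ - u₂) = -((m + l₃) * (u₂ - u₁)) := by
    linear_combination f3 - g3
  have k4 : (l₃ + l₁) * (u₂ - u₁) = (m - l₃) * (u₃ - u₂) := by
    linear_combination e1 - g1
  have k5 : (l₃ + l₁) * (u₁ - u₃) = -((m + l₁) * (u₃ - u₂)) := by
    linear_combination g1 - e1
  have k6 : (l₁ + l₂) * (u₃ - u₂) = (m - l₁) * (u₁ - u₃) := by
    linear_combination f2 - e2
  have r1 : u₂ - u₁ = (l₁ + l₂) * (l₂ + l₃) := by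
    apply mul_left_cancel₀ (mul_ne_zero d12 d31)
    have : (l₁ + l₂) * (l₂ + l₃) * ((u₂ - u₁) * (u₁ - u₃)) =
        -((m + l₂) * (m - l₂)) * ((u₂ - u₁) * (u₁ - u₃)) := by
      linear_combination (l₂ + l₃) * (u₁ - u₃) * k1 - (m + l₂) * (u₁ - u₃) * k2
    linear_combination -this + (u₂ - u₁) * (u₁ - u₃) * (am - a2)
  have r2 : u₃ - u₂ = (l₂ + l₃) * (l₃ + l₁) := by
    apply mul_left_cancel₀ (mul_ne_zero d12 d23)
    have : (l₂ + l₃) * (l₃ + l₁) * ((u₂ - u₁) * (u₃ - u₂)) =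
        -((m + l₃) * (m - l₃)) * ((u₂ - u₁) * (u₃ - u₂)) := by
      linear_combination (l₃ + l₁) * (u₂ - u₁) * k3 - (m + l₃) * (u₂ - u₁) * k4
    linear_combination -this + (u₂ - u₁) * (u₃ - u₂) * (am - a3)
  have r3 : u₁ - u₃ = (l₃ + l₁) * (l₁ + l₂) := by
    apply mul_left_cancel₀ (mul_ne_zero d23 d31)
    have : (l₃ + l₁) * (l₁ + l₂) * ((u₃ - u₂) * (u₁ - u₃)) =
        -((m + l₁) * (m - l₁)) * ((u₃ - u₂) * (u₁ - u₃)) := by
      linear_combination (l₁ + l₂) * (u₃ - u₂) * k5 - (m + l₁) * (u₃ - u₂) * k6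
    linear_combination -this + (u₃ - u₂) * (u₁ - u₃) * (am - a1)
  refine ⟨r1, r2, r3, ?_⟩
  have n1 : l₃ + l₁ ≠ 0 := fun h => d31 (by rw [r3, h, zero_mul])
  have n2 : l₁ + l₂ ≠ 0 := fun h => d31 (by rw [r3, h, mul_zero])
  -- `(m + l₂) γ = - α β`
  have s1 : (m + l₂) * (l₃ + l₁) = -((l₁ + l₂) * (l₂ + l₃)) := by
    apply mul_left_cancel₀ n2
    have := k1
    rw [r1, r3] at this
    linear_combination this
  have s2 : (l₁ + l₂) * (l₂ + l₃) + (l₂ + l₃) * (l₃ + l₁) + (l₃ + l₁) * (l₁ + l₂) = 0 := by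
    linear_combination -r1 - r2 - r3
  have s3 : (m - l₃) * (l₃ + l₁) = (l₃ + l₁) * (l₁ + l₂) := by
    linear_combination s1 - s2
  rw [g1, r3]
  linear_combination (l₁ + l₂) * s3

/-- the norm of the torsion function -/
lemma norm7 {A B u v l α β γ : ℤ} (hT : v ^ 2 = u ^ 3 + A * u + B)
    (h1 : 2 * v * l = 3 * u ^ 2 + A) (hl : 2 * l = α + γ - β) (hv : 2 * v = α ^ 2 * γ)
    (hu : 3 * u = l ^ 2 - α * β) (h0 : α * β + β * γ + γ * α = 0) :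
    (-(C (2 * α + γ)) * (X - C u) ^ 3 - C ((α + γ) * α ^ 2) * (X - C u) ^ 2 -
        ((X - C u) ^ 2 + C ((α + γ) * (3 * α + γ)) * (X - C u) + C ((α + γ) ^ 2 * α ^ 2)) *
          (C v + C l * (X - C u))) ^ 2 -
      wcub A B * ((X - C u) ^ 2 + C ((α + γ) * (3 * α + γ)) * (X - C u) +
        C ((α + γ) ^ 2 * α ^ 2)) ^ 2 = C (-1) * (X - C u) ^ 7 := by
  have hw : wcub A B = (C v + C l * (X - C u)) ^ 2 + (X - C u) ^ 3 -
      C (α * β) * (X - C u) ^ 2 := by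
    have hA : A = 2 * v * l - 3 * u ^ 2 := by linear_combination -h1
    have hB : B = v ^ 2 - u ^ 3 - (2 * v * l - 3 * u ^ 2) * u := by
      rw [← hA]; linear_combination -hT
    have hu' : 3 * (C u : ℤ[X]) = C l ^ 2 - C (α * β) := by
      have e := congrArg (C : ℤ → ℤ[X]) hu
      simpa only [C_mul, C_sub, C_pow, map_ofNat] using e
    rw [wcub, hA, hB]
    simp only [C_mul, C_sub, C_pow, map_ofNat] at hu' ⊢
    linear_combination (X - C u) ^ 2 * hu'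
  have hl' : 2 * (C l : ℤ[X]) = C α + C γ - C β := by
    have e := congrArg (C : ℤ → ℤ[X]) hl
    simpa only [C_mul, C_sub, C_add, C_pow, map_ofNat] using e
  have hv' : 2 * (C v : ℤ[X]) = C α ^ 2 * C γ := by
    have e := congrArg (C : ℤ → ℤ[X]) hv
    simpa only [C_mul, C_sub, C_add, C_pow, map_ofNat] using e
  have h0' : (C α : ℤ[X]) * C β + C β * C γ + C γ * C α = 0 := by
    have e := congrArg (C : ℤ → ℤ[X]) h0
    simpa only [C_mul, C_sub, C_add, C_pow, map_ofNat, C_0] using e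
  rw [hw]
  simp only [C_add, C_mul, C_pow, C_neg, map_ofNat, C_1]
  set x := (X : ℤ[X]) - C u with hx
  set a := (C α : ℤ[X])
  set b := (C β : ℤ[X])
  set c := (C γ : ℤ[X])
  set B2 := x ^ 2 + (a + c) * (3 * a + c) * x + (a + c) ^ 2 * a ^ 2 with hB2
  set N := -(2 * a + c) * x ^ 3 - (a + c) * a ^ 2 * x ^ 2 with hN
  have key : N ^ 2 - N * B2 * (a ^ 2 * c + (a + c - b) * x) - x ^ 2 * (x - a * b) * B2 ^ 2 + x ^ 7 =
      0 := by
    rw [hN, hB2]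
    linear_combination (x ^ 2 + (a + c) * (3 * a + c) * x + (a + c) ^ 2 * a ^ 2) * x ^ 2 *
      (-x ^ 2 + a * (2 * a + c) * x + a ^ 3 * (a + c)) * h0'
  linear_combination key - N * B2 * hv' - N * B2 * x * hl'

end Pool.Agent.H51.T7
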