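import Mathlib

/-!
Bounds for the coordinates of three integral points which are permuted by doubling.
-/

set_option autoImplicit false

namespace Pool.Agent.H51.T7

/-- the duplication formula -/
lemma dup {A B u v l u' : ℤ} (hT : v ^ 2 = u ^ 3 + A * u + B) (h1 : 2 * v * l = 3 * u ^ 2 + A)
    (h2 : l ^ 2 = 2 * u + u') :
    4 * v ^ 2 * u' = u ^ 4 - 2 * A * u ^ 2 - 8 * B * u + A ^ 2 := by
  have h3 : 4 * v ^ 2 * l ^ 2 = (3 * u ^ 2 + A) ^ 2 := by rw [← h1]; ring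
  rw [h2] at h3
  linear_combination h3 - 8 * u * hT

lemma v_ne {A B u v l : ℤ} (hD : 4 * A ^ 3 + 27 * B ^ 2 ≠ 0) (hT : v ^ 2 = u ^ 3 + A * u + B)
    (h1 : 2 * v * l = 3 * u ^ 2 + A) : v ≠ 0 := by
  rintro rfl
  apply hD
  have hA : A = -(3 * u ^ 2) := by linear_combination -h1
  have hB : B = 2 * u ^ 3 := by
    rw [hA] at hT
    linear_combination -hT
  rw [hA, hB]
  ring

/-- a large abscissa becomes smaller by doubling, and a small one does not become very large -/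
lemma step {A B u v l u' H : ℤ} (hH : 1 ≤ H) (hA : |A| ≤ H) (hB : |B| ≤ H)
    (hD : 4 * A ^ 3 + 27 * B ^ 2 ≠ 0) (hT : v ^ 2 = u ^ 3 + A * u + B)
    (h1 : 2 * v * l = 3 * u ^ 2 + A) (h2 : l ^ 2 = 2 * u + u') (h : 2571 * H ^ 4 < |u'|) :
    |u'| < |u| := by
  have hv : 1 ≤ v ^ 2 := by
    have := v_ne hD hT h1
    have : 0 < v ^ 2 := by positivity
    omega
  have hd := dup hT h1 h2
  obtain ⟨hA1, hA2⟩ := abs_le.1 hA
  obtain ⟨hB1, hB2⟩ := abs_le.1 hB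
  have hu0 : 0 ≤ |u| := abs_nonneg u
  have hnum : |u ^ 4 - 2 * A * u ^ 2 - 8 * B * u + A ^ 2| ≤
      |u| ^ 4 + 2 * H * |u| ^ 2 + 8 * H * |u| + H ^ 2 := by
    have e1 : |u ^ 4| = |u| ^ 4 := abs_pow u 4
    have e2 : |2 * A * u ^ 2| ≤ 2 * H * |u| ^ 2 := by
      rw [abs_mul, abs_mul, abs_pow, abs_two]
      exact mul_le_mul_of_nonneg_right (by linarith) (by positivity)
    have e3 : |8 * B * u| ≤ 8 * H * |u| := by
      rw [abs_mul, abs_mul]
      have : |(8 : ℤ)| = 8 := by norm_num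
      rw [this]
      exact mul_le_mul_of_nonneg_right (by linarith) hu0
    have e4 : |A ^ 2| ≤ H ^ 2 := by
      rw [abs_pow]
      exact pow_le_pow_left₀ (abs_nonneg _) hA 2
    have t1 := abs_add_le (u ^ 4 - 2 * A * u ^ 2 - 8 * B * u) (A ^ 2)
    have t2 := abs_sub (u ^ 4 - 2 * A * u ^ 2) (8 * B * u)
    have t3 := abs_sub (u ^ 4) (2 * A * u ^ 2)
    rw [e1] at t3
    linarith
  have hlhs : |4 * v ^ 2 * u'| = 4 * v ^ 2 * |u'| := by
    rw [abs_mul, abs_of_nonneg (by positivity)]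
  rw [← hd, hlhs] at hnum
  rcases le_or_gt |u| (10 * H) with h3 | h3
  · exfalso
    have g1 : 4 * |u'| ≤ 4 * v ^ 2 * |u'| := by nlinarith [abs_nonneg u']
    have g2 : |u| ^ 4 ≤ 10000 * H ^ 4 := by
      calc |u| ^ 4 ≤ (10 * H) ^ 4 := pow_le_pow_left₀ hu0 h3 4
        _ = _ := by ring
    have g3 : |u| ^ 2 ≤ 100 * H ^ 2 := by
      calc |u| ^ 2 ≤ (10 * H) ^ 2 := pow_le_pow_left₀ hu0 h3 2
        _ = _ := by ring
    have g4 : 2 * H * |u| ^ 2 ≤ 200 * H ^ 3 := by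
      calc 2 * H * |u| ^ 2 ≤ 2 * H * (100 * H ^ 2) :=
            mul_le_mul_of_nonneg_left g3 (by linarith)
        _ = _ := by ring
    have g5 : 8 * H * |u| ≤ 80 * H ^ 2 := by
      calc 8 * H * |u| ≤ 8 * H * (10 * H) := mul_le_mul_of_nonneg_left h3 (by linarith)
        _ = _ := by ring
    have p2 : H ^ 2 ≤ H ^ 4 := pow_le_pow_right₀ hH (by norm_num)
    have p3 : H ^ 3 ≤ H ^ 4 := pow_le_pow_right₀ hH (by norm_num)
    have p4 : 0 ≤ H ^ 4 := by positivity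
    linarith
  · -- `u` is positive
    have hupos : 0 < u := by
      by_contra hneg
      have hneg' : u ≤ 0 := not_lt.1 hneg
      have hu : |u| = -u := abs_of_nonpos hneg'
      rw [hu] at h3
      have k1 : v ^ 2 = -((-u) ^ 3) - A * (-u) + B := by rw [hT]; ring
      have k2 : -(A * (-u)) ≤ H * (-u) := by nlinarith
      have k3 : (-u) ^ 3 = (-u) ^ 2 * (-u) := by ring
      have k4 : 100 * H ≤ (-u) ^ 2 := by nlinarith
      have k5 : 100 * H * (-u) ≤ (-u) ^ 2 * (-u) := mul_le_mul_of_nonneg_right k4 (by linarith)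
      nlinarith
    have hu : |u| = u := abs_of_pos hupos
    rw [hu] at h3 hnum ⊢
    have k0 : 4 * v ^ 2 * u = 4 * u ^ 4 + 4 * A * u ^ 2 + 4 * B * u := by rw [hT]; ring
    have k1 : -(H * u ^ 2) ≤ A * u ^ 2 := by nlinarith [sq_nonneg u]
    have k2 : -(H * u) ≤ B * u := by nlinarith
    have k3 : 10 * H * u ^ 3 ≤ u ^ 4 := by
      have : u ^ 4 = u * u ^ 3 := by ring
      rw [this]
      exact mul_le_mul_of_nonneg_right h3.le (by positivity)
    have k4 : 10 * H * u ^ 2 ≤ u ^ 3 := by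
      have : u ^ 3 = u * u ^ 2 := by ring
      rw [this]
      exact mul_le_mul_of_nonneg_right h3.le (by positivity)
    have k5 : 10 * H * u ≤ u ^ 2 := by nlinarith
    have hu10 : 10 < u := by linarith
    have k6 : H ≤ u := by linarith
    have k7 : H ^ 2 ≤ u ^ 2 := pow_le_pow_left₀ (by linarith) k6 2
    have k8 : 10 * u ^ 3 ≤ u ^ 4 := by nlinarith [pow_pos hupos 3]
    have k9 : 10 * u ^ 2 ≤ u ^ 3 := by nlinarith [pow_pos hupos 2]
    have k10 : 0 < u ^ 2 := by positivity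
    have kk : 4 * v ^ 2 * |u'| < 4 * v ^ 2 * u := by
      rw [k0]
      nlinarith
    have hv4 : 0 < 4 * v ^ 2 := by linarith
    exact lt_of_mul_lt_mul_left kk hv4.le

/-- three integral points permuted by doubling have small abscissae -/
lemma cycle {A B u₁ v₁ l₁ u₂ v₂ l₂ u₃ v₃ l₃ H : ℤ} (hH : 1 ≤ H) (hA : |A| ≤ H) (hB : |B| ≤ H)
    (hD : 4 * A ^ 3 + 27 * B ^ 2 ≠ 0)
    (t1 : v₁ ^ 2 = u₁ ^ 3 + A * u₁ + B) (s1 : 2 * v₁ * l₁ = 3 * u₁ ^ 2 + A)
    (a1 : l₁ ^ 2 = 2 * u₁ + u₂)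
    (t2 : v₂ ^ 2 = u₂ ^ 3 + A * u₂ + B) (s2 : 2 * v₂ * l₂ = 3 * u₂ ^ 2 + A)
    (a2 : l₂ ^ 2 = 2 * u₂ + u₃)
    (t3 : v₃ ^ 2 = u₃ ^ 3 + A * u₃ + B) (s3 : 2 * v₃ * l₃ = 3 * u₃ ^ 2 + A)
    (a3 : l₃ ^ 2 = 2 * u₃ + u₁) :
    |u₁| ≤ 2571 * H ^ 4 ∧ |u₂| ≤ 2571 * H ^ 4 ∧ |u₃| ≤ 2571 * H ^ 4 := by
  have h12 := step hH hA hB hD t1 s1 a1
  have h23 := step hH hA hB hD t2 s2 a2
  have h31 := step hH hA hB hD t3 s3 a3
  refine ⟨?_, ?_, ?_⟩
  · by_contra h
    rw [not_le] at h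
    have k1 := h31 h
    have k2 := h23 (h.trans k1)
    have k3 := h12 (h.trans (k1.trans k2))
    exact lt_irrefl _ (k1.trans (k2.trans k3))
  · by_contra h
    rw [not_le] at h
    have k1 := h12 h
    have k2 := h31 (h.trans k1)
    have k3 := h23 (h.trans (k1.trans k2))
    exact lt_irrefl _ (k1.trans (k2.trans k3))
  · by_contra h
    rw [not_le] at h
    have k1 := h23 h
    have k2 := h12 (h.trans k1)
    have k3 := h31 (h.trans (k1.trans k2))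
    exact lt_irrefl _ (k1.trans (k2.trans k3))

end Pool.Agent.H51.T7
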