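import Pool.Agent.H51.T7.Engine
import Pool.Agent.H51.T7.Alg
import Pool.Agent.H51.T7.Len
import Pool.Agent.H51.T7.Bound

/-!
Integral points of the curves `y ^ 2 = x ^ 3 + A x + B` with a rational point of order seven.
-/

set_option autoImplicit false

namespace Pool.Agent.H51.T7

open Polynomial Pool.Agent.X95T

theorem seven : ∃ M : ℕ, ∀ S : Finset ℕ, ∃ K : ℕ,
    ∀ A B u₁ v₁ l₁ u₂ v₂ l₂ u₃ v₃ l₃ m : ℤ, 4 * A ^ 3 + 27 * B ^ 2 ≠ 0 →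
      u₁ ≠ u₂ → u₂ ≠ u₃ → u₃ ≠ u₁ →
      v₁ ^ 2 = u₁ ^ 3 + A * u₁ + B → 2 * v₁ * l₁ = 3 * u₁ ^ 2 + A →
      l₁ ^ 2 = 2 * u₁ + u₂ → -v₂ = v₁ + l₁ * (u₂ - u₁) →
      v₂ ^ 2 = u₂ ^ 3 + A * u₂ + B → 2 * v₂ * l₂ = 3 * u₂ ^ 2 + A →
      l₂ ^ 2 = 2 * u₂ + u₃ → -v₃ = v₂ + l₂ * (u₃ - u₂) →
      v₃ ^ 2 = u₃ ^ 3 + A * u₃ + B → 2 * v₃ * l₃ = 3 * u₃ ^ 2 + A →
      l₃ ^ 2 = 2 * u₃ + u₁ → -v₁ = v₃ + l₃ * (u₁ - u₃) →
      m ^ 2 = u₁ + u₂ + u₃ → v₂ = v₁ + m * (u₂ - u₁) → v₃ = v₂ + m * (u₃ - u₂) →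
      ∀ x y : ℤ, y ^ 2 = x ^ 3 + A * x + B →
        (∀ q : ℕ, q.Prime → (q : ℤ) ∣ x - u₁ → (q : ℤ) ∣ u₃ - u₁ → q ∈ S) →
        max x.natAbs y.natAbs ≤ K * (max A.natAbs B.natAbs) ^ M := by
  obtain ⟨K₀, hK₀⟩ := common 7 2 1 (by norm_num) (by norm_num) (by norm_num) (by norm_num)
    (by norm_num)
  refine ⟨1 + 252 * K₀, fun S => ?_⟩
  obtain ⟨c, hc⟩ := hK₀ S
  obtain ⟨Z, hZ⟩ : ∃ Z, Z = (c + 1) * (337 * (6 ^ 7 * 2571 ^ 21)) := ⟨_, rfl⟩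
  refine ⟨3 * Z ^ (3 * K₀), ?_⟩
  intro A B u₁ v₁ l₁ u₂ v₂ l₂ u₃ v₃ l₃ m hD h12 h23 h31 t1 s1 a1 b1 t2 s2 a2 b2 t3 s3 a3 b3
    am c1 c2 x y hE hS
  obtain ⟨H, hHd⟩ : ∃ H, H = max A.natAbs B.natAbs := ⟨_, rfl⟩
  rw [← hHd]
  have hAH : A.natAbs ≤ H := hHd ▸ le_max_left _ _
  have hBH : B.natAbs ≤ H := hHd ▸ le_max_right _ _
  have hH1 : 1 ≤ H := by
    by_contra h0
    have hA0 : A = 0 := by omega
    have hB0 : B = 0 := by omega
    rw [hA0, hB0] at hD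
    norm_num at hD
  obtain ⟨r1, r2, r3, r4⟩ := rel7 h12 h23 h31 a1 b1 a2 b2 a3 b3 am c1 c2
  -- sizes
  obtain ⟨N, hN⟩ : ∃ N, N = 2571 * H ^ 4 := ⟨_, rfl⟩
  have hN1 : 1 ≤ N := by
    rw [hN]
    exact Nat.mul_pos (by norm_num) (pow_pos hH1 _)
  have hHN : H ≤ N := by
    rw [hN]
    calc H ≤ H ^ 4 := Nat.le_self_pow (by norm_num) _
      _ ≤ _ := Nat.le_mul_of_pos_left _ (by norm_num)
  have hcast : ∀ z : ℤ, ∀ k : ℕ, |z| ≤ (k : ℤ) → z.natAbs ≤ k := by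
    intro z k hz
    rw [Int.abs_eq_natAbs] at hz
    exact_mod_cast hz
  have hcast' : ∀ z : ℤ, ∀ k : ℕ, z.natAbs ≤ k → |z| ≤ (k : ℤ) := by
    intro z k hz
    rw [Int.abs_eq_natAbs]
    exact_mod_cast hz
  obtain ⟨w1, w2, w3⟩ := cycle (H := (H : ℤ)) (by exact_mod_cast hH1) (hcast' _ _ hAH)
    (hcast' _ _ hBH) hD t1 s1 a1 t2 s2 a2 t3 s3 a3
  have hNZ : ((N : ℕ) : ℤ) = 2571 * (H : ℤ) ^ 4 := by rw [hN]; push_cast; ring
  rw [← hNZ] at w1 w2 w3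
  have w1' := hcast _ _ w1
  have w2' := hcast _ _ w2
  have w3' := hcast _ _ w3
  have hlb : ∀ l u u' : ℤ, l ^ 2 = 2 * u + u' → u.natAbs ≤ N → u'.natAbs ≤ N →
      l.natAbs ≤ 3 * N := by
    intro l u u' h1 h2 h3
    have e1 : l.natAbs ≤ (l ^ 2).natAbs := by
      rw [Int.natAbs_pow]
      exact Nat.le_self_pow (by norm_num) _
    rw [h1] at e1
    omega
  have hl1 := hlb _ _ _ a1 w1' w2'
  have hl2 := hlb _ _ _ a2 w2' w3'
  have hl3 := hlb _ _ _ a3 w3' w1'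
  obtain ⟨n, hn⟩ : ∃ n, n = 6 * N ^ 3 := ⟨_, rfl⟩
  have hNN : N ≤ N ^ 3 := Nat.le_self_pow (by norm_num) _
  have hn1 : 1 ≤ n := by omega
  have hu : u₁.natAbs ≤ n := by omega
  have hl : l₁.natAbs ≤ n := by omega
  have hα : (l₁ + l₂).natAbs ≤ n := by omega
  have hγ : (l₃ + l₁).natAbs ≤ n := by omega
  have hv : v₁.natAbs ≤ n := by
    have e1 : v₁.natAbs ≤ (v₁ ^ 2).natAbs := by
      rw [Int.natAbs_pow]
      exact Nat.le_self_pow (by norm_num) _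
    have e2 : (u₁ ^ 3).natAbs ≤ N ^ 3 := by
      rw [Int.natAbs_pow]
      exact Nat.pow_le_pow_left w1' 3
    have e3 : (A * u₁).natAbs ≤ N ^ 2 := by
      rw [Int.natAbs_mul, pow_two]
      exact Nat.mul_le_mul (hAH.trans hHN) w1'
    have e4 : N ^ 2 ≤ N ^ 3 := Nat.pow_le_pow_right hN1 (by norm_num)
    rw [t1] at e1
    have e5 := Int.natAbs_add_le (u₁ ^ 3 + A * u₁) B
    have e6 := Int.natAbs_add_le (u₁ ^ 3) (A * u₁)
    omega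
  -- the parameters
  obtain ⟨α, hαd⟩ : ∃ α, α = l₁ + l₂ := ⟨_, rfl⟩
  obtain ⟨β, hβd⟩ : ∃ β, β = l₂ + l₃ := ⟨_, rfl⟩
  obtain ⟨γ, hγd⟩ : ∃ γ, γ = l₃ + l₁ := ⟨_, rfl⟩
  rw [← hαd, ← hβd] at r1
  rw [← hβd, ← hγd] at r2
  rw [← hαd, ← hγd] at r3 r4
  rw [← hαd] at hα
  rw [← hγd] at hγ
  have k0 : α * β + β * γ + γ * α = 0 := by linear_combination -r1 - r2 - r3
  have kl : 2 * l₁ = α + γ - β := by rw [hαd, hβd, hγd]; ring
  have ku : 3 * u₁ = l₁ ^ 2 - α * β := by linear_combination -r1 - a1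
  have hnorm := norm7 t1 s1 kl r4 ku k0
  set Ap : ℤ[X] := -(C (2 * α + γ)) * (X - C u₁) ^ 3 - C ((α + γ) * α ^ 2) * (X - C u₁) ^ 2 -
        ((X - C u₁) ^ 2 + C ((α + γ) * (3 * α + γ)) * (X - C u₁) + C ((α + γ) ^ 2 * α ^ 2)) *
          (C v₁ + C l₁ * (X - C u₁)) with hAp
  set Bp : ℤ[X] := (X - C u₁) ^ 2 + C ((α + γ) * (3 * α + γ)) * (X - C u₁) +
        C ((α + γ) ^ 2 * α ^ 2) with hBp
  set up : ℤ[X] := X - C u₁ with hup
  have hupd : up.natDegree = 1 := natDegree_X_sub_C u₁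
  have huplc : up.leadingCoeff = 1 := leadingCoeff_X_sub_C u₁
  have hBp0 : Bp ≠ 0 := by
    intro h0
    have e1 : Bp.natDegree = 2 := by
      rw [hBp, hup]
      compute_degree!
    rw [h0] at e1
    simp at e1
  have hodd : Odd (wcub A B).natDegree := by
    rw [wcub_deg]
    decide
  -- the conditions of the engine
  have hsupp : ∀ s ∈ (quad (-(C 2 * Ap)) (C (-1) * up ^ 7) - MvPolynomial.X 1 ^ 2 +
      MvPolynomial.X 0 ^ (7 * 1)).support, 2 * s 0 + (7 * 1) * s 1 < (7 * 1) * 2 := by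
    have h1 := hyp_lf_one 7 1 (wcub A B) Ap Bp up (-1) (by norm_num) hodd hBp0 hnorm hupd
      (by decide)
    have h2 : quad (-(C 2 * Ap)) (C (-1) * up ^ 7) - lf 1 (-(-1 * up.leadingCoeff ^ 7)) 2 (7 * 1) 1 =
        quad (-(C 2 * Ap)) (C (-1) * up ^ 7) - MvPolynomial.X 1 ^ 2 +
          MvPolynomial.X 0 ^ (7 * 1) := by
      rw [huplc, lf]
      simp only [one_pow, mul_one, neg_neg, map_one, one_mul, _root_.pow_one]
      ring
    rw [h2] at h1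
    intro s hs
    have := h1 s hs
    omega
  have hline : MvPolynomial.aeval ![X, (0 : ℤ[X])] (quad (-(C 2 * Ap)) (C (-1) * up ^ 7)) =
      - up ^ 7 := by
    rw [line_quad, C_neg, C_1]
    ring
  have hUV : (C (2 * (2 * α + γ)) * up ^ 2 + C (2 * ((α + γ) * α ^ 2)) * up + C (2 * v₁) * up +
      C (2 * l₁) * up ^ 2 + C ((α + γ) * (3 * α + γ) * (2 * v₁)) +
      C ((α + γ) * (3 * α + γ) * (2 * l₁)) * up + C ((α + γ) ^ 2 * α ^ 2 * (2 * l₁))) * up +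
      (-1) * MvPolynomial.aeval ![X, (0 : ℤ[X])]
        (MvPolynomial.pderiv 1 (quad (-(C 2 * Ap)) (C (-1) * up ^ 7))) =
      C (-((α + γ) ^ 2 * α ^ 2 * (2 * v₁))) := by
    rw [deriv_quad, hAp, hBp]
    simp only [C_add, C_mul, C_pow, C_neg, map_ofNat]
    ring
  have hirr : ∀ a : ℤ, a ≠ 0 → Irreducible (MvPolynomial.map (Int.castRingHom ℚ)
      (MvPolynomial.aeval ![MvPolynomial.X 0, MvPolynomial.C a * MvPolynomial.X 1 ^ 7]
        (quad (-(C 2 * Ap)) (C (-1) * up ^ 7)) : MvPolynomial (Fin 2) ℤ)) := by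
    intro a ha
    exact irr_quad (p := 7) (by norm_num) (wcub A B) Ap Bp up (-1) (by norm_num)
      (wcub_sq A B hD) hodd hBp0 (by rw [hupd, wcub_deg]; norm_num) hnorm a ha
  have hy' : y ^ 2 = (wcub A B).eval x := by rw [wcub_eval]; exact hE
  have hnx : (Ap.eval x + Bp.eval x * y) * (Ap.eval x - Bp.eval x * y) = -(x - u₁) ^ 7 := by
    have h1 := congrArg (Polynomial.eval x) hnorm
    rw [eval_sub, eval_mul, eval_pow, eval_pow, eval_mul, eval_pow, eval_C] at h1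
    have h2 : up.eval x = x - u₁ := by rw [hup]; simp
    rw [h2] at h1
    linear_combination h1 - (Bp.eval x) ^ 2 * hy'
  have hpt : MvPolynomial.eval ![x, Ap.eval x + Bp.eval x * y]
      (quad (-(C 2 * Ap)) (C (-1) * up ^ 7)) = 0 := by
    rw [eval_quad]
    have h2 : up.eval x = x - u₁ := by rw [hup]; simp
    simp only [eval_mul, eval_pow, eval_C, eval_neg, h2]
    linear_combination -hnx
  have hprimes : ∀ q : ℕ, q.Prime → (q : ℤ) ∣ Ap.eval x + Bp.eval x * y →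
      (q : ℤ) ∣ -((α + γ) ^ 2 * α ^ 2 * (2 * v₁)) → q ∈ S := by
    intro q hq hq1 hq2
    have hqZ : Prime (q : ℤ) := Nat.prime_iff_prime_int.1 hq
    have hqx : (q : ℤ) ∣ x - u₁ := by
      have e1 : (q : ℤ) ∣ -(x - u₁) ^ 7 := by
        rw [← hnx]
        exact hq1.mul_right _
      exact hqZ.dvd_of_dvd_pow ((dvd_neg).1 e1)
    apply hS q hq hqx
    have hαγ : (q : ℤ) ∣ γ * α := by
      rw [dvd_neg, r4] at hq2
      rcases hqZ.dvd_or_dvd hq2 with h1 | h1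
      · rcases hqZ.dvd_or_dvd h1 with h3 | h3
        · have h4 := hqZ.dvd_of_dvd_pow h3
          have h5 : γ * α = -(α + γ) * β := by linear_combination k0
          rw [h5]
          exact ((dvd_neg).2 h4).mul_right _
        · exact (hqZ.dvd_of_dvd_pow h3).mul_left _
      · rcases hqZ.dvd_or_dvd h1 with h3 | h3
        · exact (hqZ.dvd_of_dvd_pow h3).mul_left _
        · exact h3.mul_right _
    have h6 : u₃ - u₁ = -(γ * α) := by linear_combination -r3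
    rw [h6]
    exact (dvd_neg).2 hαγ
  have hmain := hc _ up _ (-1) _ hsupp hline hUV hirr x _ hpt hprimes
  -- the size of the equation
  have hlen : ∑ s ∈ (quad (-(C 2 * Ap)) (C (-1) * up ^ 7)).support,
      ((quad (-(C 2 * Ap)) (C (-1) * up ^ 7)).coeff s).natAbs ≤ 337 * n ^ 7 := by
    have h1 := len_quad' Ap up (-1) 7 (104 * n ^ 6) (2 * n)
      (len_Ap u₁ v₁ l₁ α γ n hn1 hu hv hl hα hγ) (len_lin u₁ n hn1 hu)
    have h2 : 1 + 2 * (104 * n ^ 6) + (-1 : ℤ).natAbs * (2 * n) ^ 7 ≤ 337 * n ^ 7 := by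
      have e1 : (-1 : ℤ).natAbs = 1 := rfl
      rw [e1, one_mul, mul_pow]
      have e2 : n ^ 6 ≤ n ^ 7 := Nat.pow_le_pow_right hn1 (by norm_num)
      have e3 : 1 ≤ n ^ 7 := Nat.one_le_pow _ _ hn1
      norm_num
      omega
    exact le_trans (by exact h1) h2
  have hn7 : n ^ 7 ≤ 6 ^ 7 * 2571 ^ 21 * H ^ 84 := by
    rw [hn, hN]
    exact le_of_eq (by ring)
  have hZ1 : 1 ≤ Z := by rw [hZ]; exact Nat.mul_pos (Nat.succ_pos _) (by norm_num)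
  have hH84 : 1 ≤ H ^ 84 := Nat.one_le_pow _ _ hH1
  have hXb : x.natAbs ≤ (Z * H ^ 84) ^ K₀ := by
    refine (le_max_left _ _).trans (hmain.trans (Nat.pow_le_pow_left ?_ _))
    refine (Nat.mul_le_mul (Nat.le_succ c) (hlen.trans (Nat.mul_le_mul_left _ hn7))).trans
      (le_of_eq ?_)
    rw [hZ, Nat.succ_eq_add_one]
    ring
  have hfin := two_coord hAH hBH hH1 (Nat.one_le_pow _ _ (Nat.mul_pos hZ1 hH84)) hXb hE
  refine hfin.trans (le_of_eq ?_)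
  have e1 : ((Z * H ^ 84) ^ K₀) ^ 3 = Z ^ (3 * K₀) * H ^ (252 * K₀) := by
    rw [← pow_mul, mul_pow, ← pow_mul]
    congr 2 <;> ring
  rw [e1, pow_add, _root_.pow_one]
  ring

end Pool.Agent.H51.T7
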